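import Pool.Agent.H26.MQ.Defs

/-! # KT: the average of a Poisson integral over half circles -/

set_option autoImplicit false

open MeasureTheory Set

namespace Pool.Agent.H86.MQ

open Pool.Agent.H26.MQ Pool.Agent.H26.ML

theorem kt_nonneg {c : ℝ} (hc : 0 ≤ c) (u : ℝ) : 0 ≤ poi c u := by
  unfold poi
  positivity

theorem kt_meas : Measurable fun q : ℝ × ℝ => poi q.1 q.2 := by
  unfold poi
  fun_prop

theorem kt_comp {c : ℝ} (hc : 0 < c) (y u : ℝ) :
    poi c (y - u) ≤ c * ((1 + 2 * y ^ 2) / c ^ 2 + 2) * poi 1 u := by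
  unfold poi
  rw [mul_one_div, div_le_div_iff₀ (by positivity) (by positivity)]
  have h1 : 1 ^ 2 + u ^ 2 ≤ ((1 + 2 * y ^ 2) / c ^ 2 + 2) * (c ^ 2 + (y - u) ^ 2) := by
    have h2 : ((1 + 2 * y ^ 2) / c ^ 2 + 2) * (c ^ 2 + (y - u) ^ 2) =
        1 + 2 * y ^ 2 + 2 * c ^ 2 + 2 * (y - u) ^ 2 +
          (1 + 2 * y ^ 2) / c ^ 2 * (y - u) ^ 2 := by
      field_simp
      ring
    rw [h2]
    have h3 : 0 ≤ (1 + 2 * y ^ 2) / c ^ 2 * (y - u) ^ 2 := by positivity
    nlinarith [sq_nonneg (2 * y - u), sq_nonneg c]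
  calc c * (1 ^ 2 + u ^ 2) ≤ c * (((1 + 2 * y ^ 2) / c ^ 2 + 2) * (c ^ 2 + (y - u) ^ 2)) :=
        mul_le_mul_of_nonneg_left h1 hc.le
    _ = _ := by ring

theorem kt_comp' {δ c : ℝ} (hδ : 0 < δ) (h1 : δ ≤ c) (h2 : c ≤ 2) {y : ℝ} (hy : |y| ≤ 1)
    (u : ℝ) : poi c (y - u) ≤ 2 * (3 / δ ^ 2 + 2) * poi 1 u := by
  have hc : 0 < c := by linarith
  refine (kt_comp hc y u).trans ?_
  refine mul_le_mul_of_nonneg_right ?_ (kt_nonneg zero_le_one u)
  have hy2 : y ^ 2 ≤ 1 := by
    rw [← sq_abs]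
    exact pow_le_one₀ (abs_nonneg _) hy
  have h3 : (1 + 2 * y ^ 2) / c ^ 2 ≤ 3 / δ ^ 2 := by
    apply div_le_div₀ (by norm_num) (by linarith) (by positivity)
    exact pow_le_pow_left₀ hδ.le h1 2
  have h4 : 0 ≤ (1 + 2 * y ^ 2) / c ^ 2 := by positivity
  apply mul_le_mul h2 (by linarith) (by linarith) (by norm_num)

section

variable {b : ℝ → ℝ} (hb : Measurable b) (hbi : Integrable (fun u => poi 1 u * b u))

include hbi

theorem kt_abs : Integrable (fun u => poi 1 u * |b u|) := by
  refine hbi.norm.congr (Filter.Eventually.of_forall fun u => ?_)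
  simp only
  rw [norm_mul, Real.norm_of_nonneg (kt_nonneg zero_le_one u), Real.norm_eq_abs]

include hb

theorem kt_int {k : ℝ → ℝ} (hk : Measurable k) {K : ℝ} (hK : ∀ u, |k u| ≤ K * poi 1 u) :
    Integrable (fun u => k u * b u) := by
  refine ((kt_abs hbi).const_mul K).mono' (hk.mul hb).aestronglyMeasurable ?_
  refine Filter.Eventually.of_forall fun u => ?_
  rw [norm_mul, Real.norm_eq_abs, Real.norm_eq_abs, ← mul_assoc]
  exact mul_le_mul_of_nonneg_right (hK u) (abs_nonneg _)

end

/-- the set of angles -/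
abbrev TH : Set ℝ := Ioc (-(Real.pi / 2)) (Real.pi / 2)

theorem kt_cos {θ : ℝ} (h : θ ∈ TH) : 0 ≤ Real.cos θ :=
  Real.cos_nonneg_of_mem_Icc ⟨h.1.le, h.2⟩

theorem kt_hmeas (δ : ℝ) : Measurable fun q : (ℝ × ℝ) × ℝ =>
    poi (q.1.1 * Real.cos q.2 + δ) (q.1.1 * Real.sin q.2 - q.1.2) := by
  have h1 : Measurable fun q : (ℝ × ℝ) × ℝ =>
      (q.1.1 * Real.cos q.2 + δ, q.1.1 * Real.sin q.2 - q.1.2) := by fun_prop
  have h2 := kt_meas.comp h1
  exact h2

theorem kt_arc_eq (δ u r : ℝ) : arc δ u r =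
    ∫ θ in TH, poi (r * Real.cos θ + δ) (r * Real.sin θ - u) := by
  unfold arc
  rw [intervalIntegral.integral_of_le (by have := Real.pi_pos; linarith)]

theorem kt_arc_meas (δ : ℝ) : Measurable fun q : ℝ × ℝ => arc δ q.2 q.1 := by
  have h1 := (kt_hmeas δ).stronglyMeasurable.integral_prod_right' (ν := volume.restrict TH)
  have h2 : (fun q : ℝ × ℝ => arc δ q.2 q.1) = fun q : ℝ × ℝ => ∫ θ in TH,
      poi (q.1 * Real.cos θ + δ) (q.1 * Real.sin θ - q.2) := by
    funext q
    exact kt_arc_eq δ q.2 q.1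
  rw [h2]
  exact h1.measurable

theorem kt_pt {δ r θ : ℝ} (hδ : 0 < δ) (hδ1 : δ ≤ 1) (hr0 : 0 ≤ r) (hr : r ≤ 1 / 4)
    (hθ : θ ∈ TH) (u : ℝ) : poi (r * Real.cos θ + δ) (r * Real.sin θ - u) ≤
      2 * (3 / δ ^ 2 + 2) * poi 1 u := by
  have hc := kt_cos hθ
  have hc1 := Real.cos_le_one θ
  have h0 : 0 ≤ r * Real.cos θ := mul_nonneg hr0 hc
  refine kt_comp' hδ (by linarith) ?_ ?_ u
  · have : r * Real.cos θ ≤ 1 / 4 * 1 := mul_le_mul hr hc1 hc (by norm_num)
    linarith
  · rw [abs_mul, abs_of_nonneg hr0]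
    have := Real.abs_sin_le_one θ
    calc r * |Real.sin θ| ≤ 1 / 4 * 1 := mul_le_mul hr this (abs_nonneg _) (by norm_num)
      _ ≤ 1 := by norm_num

theorem kt_arc_nonneg {δ r : ℝ} (hδ : 0 < δ) (hr0 : 0 ≤ r) (u : ℝ) : 0 ≤ arc δ u r := by
  rw [kt_arc_eq]
  refine setIntegral_nonneg measurableSet_Ioc fun θ hθ => ?_
  have := mul_nonneg hr0 (kt_cos hθ)
  exact kt_nonneg (by linarith) _

theorem kt_arc_le {δ r : ℝ} (hδ : 0 < δ) (hδ1 : δ ≤ 1) (hr0 : 0 ≤ r) (hr : r ≤ 1 / 4) (u : ℝ) :
    arc δ u r ≤ Real.pi * (2 * (3 / δ ^ 2 + 2) * poi 1 u) := by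
  rw [kt_arc_eq]
  have h1 : ∫ θ in TH, poi (r * Real.cos θ + δ) (r * Real.sin θ - u) ≤
      ∫ _θ in TH, 2 * (3 / δ ^ 2 + 2) * poi 1 u := by
    refine integral_mono_of_nonneg ?_ (integrable_const _) ?_
    · filter_upwards [ae_restrict_mem measurableSet_Ioc] with θ hθ
      have := mul_nonneg hr0 (kt_cos hθ)
      exact kt_nonneg (by linarith) _
    · filter_upwards [ae_restrict_mem measurableSet_Ioc] with θ hθ
      exact kt_pt hδ hδ1 hr0 hr hθ u
  refine h1.trans (le_of_eq ?_)
  rw [setIntegral_const, smul_eq_mul]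
  congr 1
  rw [Measure.real, Real.volume_Ioc, ENNReal.toReal_ofReal (by have := Real.pi_pos; linarith)]
  ring

section

variable {b : ℝ → ℝ} (hb : Measurable b) (hbi : Integrable (fun u => poi 1 u * b u))

include hb hbi

/-- Fubini in the angle -/
theorem kt_fub1 {δ r : ℝ} (hδ : 0 < δ) (hδ1 : δ ≤ 1) (hr0 : 0 ≤ r) (hr : r ≤ 1 / 4) :
    ∫ θ in (-(Real.pi / 2))..(Real.pi / 2), UU δ b (r * Real.cos θ) (r * Real.sin θ) =
      Real.pi⁻¹ * ∫ u, arc δ u r * b u := by
  rw [intervalIntegral.integral_of_le (by have := Real.pi_pos; linarith)]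
  unfold UU
  rw [integral_const_mul]
  congr 1
  have hm : Measurable fun q : ℝ × ℝ =>
      poi (r * Real.cos q.1 + δ) (r * Real.sin q.1 - q.2) := by
    have h1 : Measurable fun q : ℝ × ℝ =>
        (r * Real.cos q.1 + δ, r * Real.sin q.1 - q.2) := by fun_prop
    have h2 := kt_meas.comp h1
    exact h2
  have hi : Integrable (Function.uncurry fun θ u : ℝ =>
      poi (r * Real.cos θ + δ) (r * Real.sin θ - u) * b u)
      ((volume.restrict TH).prod volume) := by
    have hg : Integrable (fun q : ℝ × ℝ => (1 : ℝ) *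
        (2 * (3 / δ ^ 2 + 2) * (poi 1 q.2 * |b q.2|))) ((volume.restrict TH).prod volume) :=
      (integrable_const (1 : ℝ)).mul_prod ((kt_abs hbi).const_mul _)
    refine hg.mono' (hm.mul (hb.comp measurable_snd)).aestronglyMeasurable ?_
    have hae : ∀ᵐ q : ℝ × ℝ ∂((volume.restrict TH).prod volume), q.1 ∈ TH :=
      Measure.quasiMeasurePreserving_fst.ae (ae_restrict_mem measurableSet_Ioc)
    filter_upwards [hae] with q hq
    simp only [Function.uncurry]
    have h0 := mul_nonneg hr0 (kt_cos hq)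
    rw [norm_mul, Real.norm_of_nonneg (kt_nonneg (by linarith) _), Real.norm_eq_abs, one_mul,
      ← mul_assoc]
    exact mul_le_mul_of_nonneg_right (kt_pt hδ hδ1 hr0 hr hq _) (abs_nonneg _)
  have h1 := integral_integral_swap hi
  rw [h1]
  refine integral_congr_ae (Filter.Eventually.of_forall fun u => ?_)
  simp only
  rw [integral_mul_const, kt_arc_eq]

/-- Fubini in the radius -/
theorem kt_fub2 (hPB : T_PB) {δ N : ℝ} (hδ : 0 < δ) (hδ1 : δ ≤ 1) (hN : 1 ≤ N) :
    Integrable (fun u => (∫ r in Ioc (0 : ℝ) (1 / 4), N * pp (N * r) * arc δ u r) * b u) ∧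
    ∫ r in (0 : ℝ)..(1 / 4), N * pp (N * r) * (Real.pi⁻¹ *
      ∫ θ in (-(Real.pi / 2))..(Real.pi / 2), UU δ b (r * Real.cos θ) (r * Real.sin θ)) =
    Real.pi⁻¹ * Real.pi⁻¹ *
      ∫ u, (∫ r in Ioc (0 : ℝ) (1 / 4), N * pp (N * r) * arc δ u r) * b u := by
  have hppc : Continuous pp := hPB.2.2.2.2.1
  have hi : Integrable (Function.uncurry fun r u : ℝ => N * pp (N * r) * arc δ u r * b u)
      ((volume.restrict (Ioc (0 : ℝ) (1 / 4))).prod volume) := by
    have hg : Integrable (fun q : ℝ × ℝ => (N ^ 2 * Real.pi : ℝ) *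
        (2 * (3 / δ ^ 2 + 2) * (poi 1 q.2 * |b q.2|)))
        ((volume.restrict (Ioc (0 : ℝ) (1 / 4))).prod volume) :=
      (integrable_const (N ^ 2 * Real.pi : ℝ)).mul_prod ((kt_abs hbi).const_mul _)
    have hm : Measurable (Function.uncurry fun r u : ℝ => N * pp (N * r) * arc δ u r * b u) := by
      have h1 : Measurable fun q : ℝ × ℝ => N * pp (N * q.1) := by
        have : Continuous fun q : ℝ × ℝ => N * pp (N * q.1) := by fun_prop
        exact this.measurable
      exact (h1.mul (kt_arc_meas δ)).mul (hb.comp measurable_snd)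
    refine hg.mono' hm.aestronglyMeasurable ?_
    have hae : ∀ᵐ q : ℝ × ℝ ∂((volume.restrict (Ioc (0 : ℝ) (1 / 4))).prod volume),
        q.1 ∈ Ioc (0 : ℝ) (1 / 4) :=
      Measure.quasiMeasurePreserving_fst.ae (ae_restrict_mem measurableSet_Ioc)
    filter_upwards [hae] with q hq
    simp only [Function.uncurry]
    have hNr : 0 ≤ N * q.1 := mul_nonneg (by linarith) hq.1.le
    have hp0 := hPB.1 _ hNr
    have hp1 := hPB.2.1 _ hNr
    have ha0 := kt_arc_nonneg hδ hq.1.le q.2
    have ha1 := kt_arc_le hδ hδ1 hq.1.le hq.2 q.2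
    rw [norm_mul, norm_mul, norm_mul, Real.norm_of_nonneg (by linarith : (0 : ℝ) ≤ N),
      Real.norm_of_nonneg hp0, Real.norm_of_nonneg ha0, Real.norm_eq_abs]
    have h1 : N * pp (N * q.1) ≤ N ^ 2 := by
      have h2 : pp (N * q.1) ≤ N := by
        refine hp1.trans ?_
        have := hq.2
        nlinarith
      nlinarith
    calc N * pp (N * q.1) * arc δ q.2 q.1 * |b q.2| ≤
          N ^ 2 * (Real.pi * (2 * (3 / δ ^ 2 + 2) * poi 1 q.2)) * |b q.2| := by
          refine mul_le_mul_of_nonneg_right ?_ (abs_nonneg _)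
          exact mul_le_mul h1 ha1 ha0 (by positivity)
      _ = _ := by ring
  have e2 : ∀ u, ∫ r in Ioc (0 : ℝ) (1 / 4), N * pp (N * r) * arc δ u r * b u =
      (∫ r in Ioc (0 : ℝ) (1 / 4), N * pp (N * r) * arc δ u r) * b u := fun u => by
    rw [integral_mul_const]
  constructor
  · have h1 := hi.integral_prod_right
    refine h1.congr (Filter.Eventually.of_forall fun u => ?_)
    exact e2 u
  · rw [intervalIntegral.integral_of_le (by norm_num)]
    have e1 : ∀ r ∈ Ioc (0 : ℝ) (1 / 4), N * pp (N * r) * (Real.pi⁻¹ *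
        ∫ θ in (-(Real.pi / 2))..(Real.pi / 2), UU δ b (r * Real.cos θ) (r * Real.sin θ)) =
        Real.pi⁻¹ * Real.pi⁻¹ * ∫ u, N * pp (N * r) * arc δ u r * b u := by
      intro r hr
      rw [kt_fub1 hb hbi hδ hδ1 hr.1.le hr.2]
      have e3 : ∀ u, N * pp (N * r) * arc δ u r * b u =
          (N * pp (N * r)) * (arc δ u r * b u) := fun u => by ring
      rw [integral_congr_ae (Filter.Eventually.of_forall e3), integral_const_mul]
      ring
    rw [setIntegral_congr_fun measurableSet_Ioc e1, integral_const_mul]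
    congr 1
    rw [integral_integral_swap hi]
    exact integral_congr_ae (Filter.Eventually.of_forall e2)

/-- integrability on the plane -/
theorem kt_plane (hSG : T_SG) {a : ℝ} (ha : 0 < a) :
    Integrable (Function.uncurry fun y u : ℝ => poi 1 y * poi a (y - u) * b u)
      (volume.prod volume) := by
  have hm1 : Measurable fun q : ℝ × ℝ => poi 1 q.1 :=
    (poi_continuous one_pos).measurable.comp measurable_fst
  have hm2 : Measurable fun q : ℝ × ℝ => poi a (q.1 - q.2) :=
    (poi_continuous ha).measurable.comp (measurable_fst.sub measurable_snd)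
  have hm : Measurable (Function.uncurry fun y u : ℝ => poi 1 y * poi a (y - u) * b u) :=
    (hm1.mul hm2).mul (hb.comp measurable_snd)
  rw [integrable_prod_iff' hm.aestronglyMeasurable]
  constructor
  · refine Filter.Eventually.of_forall fun u => ?_
    have h1 := ((hSG a 1 u ha one_pos).1).mul_const (b u)
    refine h1.congr (Filter.Eventually.of_forall fun y => ?_)
    simp only [Function.uncurry]
    ring
  · have h1 : ∀ u, ∫ y, ‖Function.uncurry (fun y u : ℝ => poi 1 y * poi a (y - u) * b u) (y, u)‖ =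
        Real.pi * poi (a + 1) u * |b u| := by
      intro u
      rw [← (hSG a 1 u ha one_pos).2, ← integral_mul_const]
      refine integral_congr_ae (Filter.Eventually.of_forall fun y => ?_)
      simp only [Function.uncurry]
      rw [norm_mul, norm_mul, Real.norm_of_nonneg (kt_nonneg zero_le_one _),
        Real.norm_of_nonneg (kt_nonneg ha.le _), Real.norm_eq_abs]
      ring
    simp only [h1]
    have h2 : Integrable fun u => Real.pi * poi (a + 1) u * b u := by
      refine kt_int hb hbi ((poi_continuous (by positivity)).measurable.const_mul _)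
        (K := Real.pi * ((a + 1) * ((1 + 2 * (0 : ℝ) ^ 2) / (a + 1) ^ 2 + 2))) fun u => ?_
      have h3 := kt_comp (by positivity : 0 < a + 1) 0 u
      have h4 : poi (a + 1) (0 - u) = poi (a + 1) u := by
        unfold poi
        rw [zero_sub, neg_sq]
      rw [h4] at h3
      rw [abs_of_nonneg (mul_nonneg Real.pi_pos.le (kt_nonneg (by positivity) _))]
      calc Real.pi * poi (a + 1) u ≤ Real.pi *
            ((a + 1) * ((1 + 2 * (0 : ℝ) ^ 2) / (a + 1) ^ 2 + 2) * poi 1 u) :=
            mul_le_mul_of_nonneg_left h3 Real.pi_pos.le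
        _ = _ := by ring
    refine h2.norm.congr (Filter.Eventually.of_forall fun u => ?_)
    simp only
    rw [norm_mul, Real.norm_of_nonneg (mul_nonneg Real.pi_pos.le (kt_nonneg (by positivity) _)),
      Real.norm_eq_abs]

end

theorem pf_kt (hPB : T_PB) (hSG : T_SG) (hAK : T_AK) (hGB : T_GB) (hGC : T_GC) (hGK : T_GK)
    (hTL : T_TL) : T_KT := by
  intro X
  obtain ⟨C2, hC20, hC2⟩ := hGB X
  obtain ⟨C1, hC10, hC1⟩ := hTL
  have hpi := Real.pi_pos
  refine ⟨Real.pi * C2 + |X| + 1 + C1, by positivity, ?_⟩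
  intro x δ N m b hx hxX hδ hδ1 hN hm hb hbi hU
  have hN0 : 0 < N := by linarith
  have ha : 0 < x + δ := by linarith
  set A : ℝ := C2 * Real.exp ((X + 1) * N) with hA
  have hA0 : 0 ≤ A := by positivity
  have hg : ∀ y, |gk x N y| ≤ A * poi 1 y := fun y => hC2 x N y hx.le hxX hN
  have hgc : Continuous (gk x N) := hGC x N hN0
  -- the plane
  have hP := kt_plane hb hbi hSG ha
  have hF : Integrable (Function.uncurry fun y u : ℝ => gk x N y * poi (x + δ) (y - u) * b u)
      (volume.prod volume) := by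
    have hm1 : Measurable fun q : ℝ × ℝ => gk x N q.1 := hgc.measurable.comp measurable_fst
    have hm2 : Measurable fun q : ℝ × ℝ => poi (x + δ) (q.1 - q.2) :=
      (poi_continuous ha).measurable.comp (measurable_fst.sub measurable_snd)
    refine (hP.norm.const_mul A).mono'
      ((hm1.mul hm2).mul (hb.comp measurable_snd)).aestronglyMeasurable ?_
    refine Filter.Eventually.of_forall fun q => ?_
    simp only [Function.uncurry]
    rw [norm_mul, norm_mul, norm_mul, norm_mul, Real.norm_eq_abs (gk x N q.1),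
      Real.norm_of_nonneg (kt_nonneg zero_le_one _), ← mul_assoc, ← mul_assoc]
    refine mul_le_mul_of_nonneg_right ?_ (norm_nonneg _)
    exact mul_le_mul_of_nonneg_right (hg _) (norm_nonneg _)
  have hUd : ∀ y, ∫ u, poi (x + δ) (y - u) * b u = Real.pi * UU δ b x y := by
    intro y
    unfold UU
    rw [← mul_assoc, mul_inv_cancel₀ hpi.ne', one_mul]
  -- the main term
  have hT1i : Integrable fun u => (Real.pi * ∫ y, gk x N y * poi (x + δ) (y - u)) * b u := by
    have h1 := (hF.integral_prod_right).const_mul Real.pi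
    refine h1.congr (Filter.Eventually.of_forall fun u => ?_)
    simp only [Function.uncurry]
    rw [integral_mul_const]
    ring
  have hT1 : ∫ u, (Real.pi * ∫ y, gk x N y * poi (x + δ) (y - u)) * b u =
      Real.pi * Real.pi * ∫ y, gk x N y * UU δ b x y := by
    have h1 := integral_integral_swap hF
    have e1 : ∀ u, (Real.pi * ∫ y, gk x N y * poi (x + δ) (y - u)) * b u =
        Real.pi * ∫ y, gk x N y * poi (x + δ) (y - u) * b u := by
      intro u
      rw [integral_mul_const]
      ring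
    have e2 : ∀ y, ∫ u, gk x N y * poi (x + δ) (y - u) * b u =
        Real.pi * (gk x N y * UU δ b x y) := by
      intro y
      have e3 : ∀ u, gk x N y * poi (x + δ) (y - u) * b u =
          gk x N y * (poi (x + δ) (y - u) * b u) := fun u => by ring
      rw [integral_congr_ae (Filter.Eventually.of_forall e3), integral_const_mul, hUd]
      ring
    rw [integral_congr_ae (Filter.Eventually.of_forall e1), integral_const_mul, ← h1,
      integral_congr_ae (Filter.Eventually.of_forall e2), integral_const_mul]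
    ring
  -- the mean
  have hPU : Integrable fun y => poi 1 y * UU δ b x y := by
    have h1 := (hP.integral_prod_left).const_mul Real.pi⁻¹
    refine h1.congr (Filter.Eventually.of_forall fun y => ?_)
    simp only [Function.uncurry]
    have e3 : ∀ u, poi 1 y * poi (x + δ) (y - u) * b u =
        poi 1 y * (poi (x + δ) (y - u) * b u) := fun u => by ring
    rw [integral_congr_ae (Filter.Eventually.of_forall e3), integral_const_mul, hUd]
    field_simp
  have hPUv : ∫ y, poi 1 y * UU δ b x y = Real.pi * UU δ b (x + 1) 0 := by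
    have h1 := integral_integral_swap hP
    have e2 : ∀ y, ∫ u, poi 1 y * poi (x + δ) (y - u) * b u =
        Real.pi * (poi 1 y * UU δ b x y) := by
      intro y
      have e3 : ∀ u, poi 1 y * poi (x + δ) (y - u) * b u =
          poi 1 y * (poi (x + δ) (y - u) * b u) := fun u => by ring
      rw [integral_congr_ae (Filter.Eventually.of_forall e3), integral_const_mul, hUd]
      ring
    have e4 : ∀ u, ∫ y, poi 1 y * poi (x + δ) (y - u) * b u =
        Real.pi * (poi (x + 1 + δ) (0 - u) * b u) := by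
      intro u
      have e5 : ∀ y, poi 1 y * poi (x + δ) (y - u) * b u =
          poi (x + δ) (y - u) * poi 1 y * b u := fun y => by ring
      rw [integral_congr_ae (Filter.Eventually.of_forall e5), integral_mul_const,
        (hSG (x + δ) 1 u ha one_pos).2]
      have e6 : poi (x + 1 + δ) (0 - u) = poi (x + δ + 1) u := by
        unfold poi
        rw [zero_sub, neg_sq]
        ring
      rw [e6]
      ring
    rw [integral_congr_ae (Filter.Eventually.of_forall e2),
      integral_congr_ae (Filter.Eventually.of_forall e4), integral_const_mul,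
      integral_const_mul] at h1
    have h2 := mul_left_cancel₀ hpi.ne' h1
    rw [h2]
    unfold UU
    rw [← mul_assoc, mul_inv_cancel₀ hpi.ne', one_mul]
  have hPi : Integrable (poi 1) := poi_integrable one_pos
  have hS : ∫ y, poi 1 y * (UU δ b x y + 2 * m) = Real.pi * (UU δ b (x + 1) 0 + 2 * m) := by
    have e1 : ∀ y, poi 1 y * (UU δ b x y + 2 * m) =
        poi 1 y * UU δ b x y + poi 1 y * (2 * m) := fun y => by ring
    rw [integral_congr_ae (Filter.Eventually.of_forall e1),
      integral_add hPU (hPi.mul_const _), hPUv, integral_mul_const, poi_integral one_pos]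
    ring
  have hSi : Integrable fun y => poi 1 y * (UU δ b x y + 2 * m) := by
    refine (hPU.add (hPi.mul_const (2 * m))).congr (Filter.Eventually.of_forall fun y => ?_)
    simp only [Pi.add_apply]
    ring
  have hS0 : 0 ≤ UU δ b (x + 1) 0 + 2 * m := by
    have h1 : 0 ≤ ∫ y, poi 1 y * (UU δ b x y + 2 * m) := by
      refine integral_nonneg fun y => mul_nonneg (kt_nonneg zero_le_one _) ?_
      have := hU y
      linarith
    rw [hS] at h1
    exact nonneg_of_mul_nonneg_right h1 hpi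
  have hgU : ∫ y, gk x N y * UU δ b x y ≤ A * (Real.pi * (UU δ b (x + 1) 0 + 2 * m)) := by
    rw [← hS, ← integral_const_mul]
    refine (le_abs_self _).trans ?_
    rw [← Real.norm_eq_abs]
    refine norm_integral_le_of_norm_le (hSi.const_mul A) ?_
    refine Filter.Eventually.of_forall fun y => ?_
    rw [norm_mul, Real.norm_eq_abs, Real.norm_eq_abs, ← mul_assoc]
    refine mul_le_mul (hg y) ?_ (abs_nonneg _)
      (mul_nonneg hA0 (kt_nonneg zero_le_one _))
    have := hU y
    rw [abs_le]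
    constructor <;> linarith
  -- the comparison
  obtain ⟨hDi, hD⟩ := kt_fub2 hb hbi hPB hδ hδ1 hN
  rw [hD]
  have hcmp : ∀ u, (∫ r in Ioc (0 : ℝ) (1 / 4), N * pp (N * r) * arc δ u r) * b u ≤
      (Real.pi * ∫ y, gk x N y * poi (x + δ) (y - u)) * b u +
        C1 / N ^ 2 * (poi 1 u * |b u|) := by
    intro u
    obtain ⟨h1, h2⟩ := hAK δ u N hδ hN0
    rw [← hGK x δ N u hx hδ hN0] at h2
    have h3 : ∫ r in Ioi (0 : ℝ), N * pp (N * r) * arc δ u r =
        (∫ r in Ioc (0 : ℝ) (1 / 4), N * pp (N * r) * arc δ u r) +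
          ∫ r in Ioi (1 / 4 : ℝ), N * pp (N * r) * arc δ u r := by
      rw [← Ioc_union_Ioi_eq_Ioi (by norm_num : (0 : ℝ) ≤ 1 / 4)]
      refine setIntegral_union ?_ measurableSet_Ioi (h1.mono_set Ioc_subset_Ioi_self)
        (h1.mono_set (Ioi_subset_Ioi (by norm_num)))
      exact Set.disjoint_left.mpr fun r hr hr' => not_lt.mpr hr.2 hr'
    have h4 := hC1 δ u N hδ hδ1 hN
    have h5 : 0 ≤ ∫ r in Ioi (1 / 4 : ℝ), N * pp (N * r) * arc δ u r := by
      refine setIntegral_nonneg measurableSet_Ioi fun r hr => ?_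
      have hr0 : (0 : ℝ) ≤ r := by
        have : (1 / 4 : ℝ) < r := hr
        linarith
      exact mul_nonneg (mul_nonneg hN0.le (hPB.1 _ (mul_nonneg hN0.le hr0)))
        (kt_arc_nonneg hδ hr0 u)
    set T2 : ℝ := ∫ r in Ioi (1 / 4 : ℝ), N * pp (N * r) * arc δ u r with hT2
    have h6 : (∫ r in Ioc (0 : ℝ) (1 / 4), N * pp (N * r) * arc δ u r) =
        (Real.pi * ∫ y, gk x N y * poi (x + δ) (y - u)) - T2 := by
      linarith
    rw [h6, sub_mul]
    have h7 : -(T2 * b u) ≤ C1 / N ^ 2 * (poi 1 u * |b u|) := by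
      calc -(T2 * b u) ≤ |T2 * b u| := neg_le_abs _
        _ = T2 * |b u| := by rw [abs_mul, abs_of_nonneg h5]
        _ ≤ C1 / N ^ 2 * poi 1 u * |b u| := mul_le_mul_of_nonneg_right h4 (abs_nonneg _)
        _ = _ := by ring
    linarith
  have hPb := kt_abs hbi
  have hfin : ∫ u, (∫ r in Ioc (0 : ℝ) (1 / 4), N * pp (N * r) * arc δ u r) * b u ≤
      Real.pi * Real.pi * (A * (Real.pi * (UU δ b (x + 1) 0 + 2 * m))) +
        C1 / N ^ 2 * ∫ u, poi 1 u * |b u| := by
    refine (integral_mono hDi (hT1i.add (hPb.const_mul _)) hcmp).trans ?_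
    simp only [Pi.add_apply]
    rw [integral_add hT1i (hPb.const_mul _), hT1, integral_const_mul]
    have := mul_le_mul_of_nonneg_left hgU (by positivity : 0 ≤ Real.pi * Real.pi)
    linarith
  have hPb0 : 0 ≤ ∫ u, poi 1 u * |b u| :=
    integral_nonneg fun u => mul_nonneg (kt_nonneg zero_le_one _) (abs_nonneg _)
  have hpp : 0 ≤ Real.pi⁻¹ * Real.pi⁻¹ := by positivity
  refine (mul_le_mul_of_nonneg_left hfin hpp).trans ?_
  have e1 : Real.pi⁻¹ * Real.pi⁻¹ * (Real.pi * Real.pi *
      (A * (Real.pi * (UU δ b (x + 1) 0 + 2 * m))) + C1 / N ^ 2 * ∫ u, poi 1 u * |b u|) =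
      Real.pi * C2 * Real.exp ((X + 1) * N) * (UU δ b (x + 1) 0 + 2 * m) +
        Real.pi⁻¹ * Real.pi⁻¹ * C1 / N ^ 2 * ∫ u, poi 1 u * |b u| := by
    rw [hA]
    field_simp
  rw [e1]
  have hXa : X ≤ |X| := le_abs_self X
  have hXn := abs_nonneg X
  have hpC : 0 ≤ Real.pi * C2 := by positivity
  refine add_le_add ?_ ?_
  · refine mul_le_mul_of_nonneg_right ?_ hS0
    refine mul_le_mul (by linarith) ?_ (Real.exp_pos _).le (by linarith)
    apply Real.exp_le_exp.mpr
    apply mul_le_mul_of_nonneg_right _ hN0.le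
    linarith
  · refine mul_le_mul_of_nonneg_right ?_ hPb0
    refine div_le_div_of_nonneg_right ?_ (by positivity)
    have h1 : Real.pi⁻¹ ≤ 1 := by
      rw [inv_le_one₀ hpi]
      have := Real.pi_gt_three
      linarith
    have h2 : Real.pi⁻¹ * Real.pi⁻¹ ≤ 1 := mul_le_one₀ h1 (by positivity) h1
    nlinarith

end Pool.Agent.H86.MQ
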