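import Pool.Agent.H26.MQ.Defs

/-! # PS: the sine transform of the density -/

set_option autoImplicit false

open MeasureTheory Set FourierTransform

namespace Pool.Agent.H86.MQ

open Pool.Agent.H26.MQ Pool.Agent.H26.ML

theorem odd_ft (g : ℝ → ℝ) (hg : Integrable g) (hodd : ∀ x, g (-x) = -g x) (c : ℝ) :
    ∫ v : ℝ, Complex.exp (((c * v : ℝ) : ℂ) * Complex.I) * ((g v : ℝ) : ℂ) =
      Complex.I * ((2 * ∫ v in Ioi (0 : ℝ), Real.sin (c * v) * g v : ℝ) : ℂ) := by
  have h1 : Integrable fun v => Real.cos (c * v) * g v := by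
    refine Integrable.bdd_mul (c := 1) hg ?_ ?_
    · have : Continuous fun v : ℝ => Real.cos (c * v) := by fun_prop
      exact this.aestronglyMeasurable
    · exact Filter.Eventually.of_forall fun v => by
        rw [Real.norm_eq_abs]
        exact Real.abs_cos_le_one _
  have h2 : Integrable fun v => Real.sin (c * v) * g v := by
    refine Integrable.bdd_mul (c := 1) hg ?_ ?_
    · have : Continuous fun v : ℝ => Real.sin (c * v) := by fun_prop
      exact this.aestronglyMeasurable
    · exact Filter.Eventually.of_forall fun v => by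
        rw [Real.norm_eq_abs]
        exact Real.abs_sin_le_one _
  have e1 : ∀ v : ℝ, Complex.exp (((c * v : ℝ) : ℂ) * Complex.I) * ((g v : ℝ) : ℂ) =
      ((Real.cos (c * v) * g v : ℝ) : ℂ) + Complex.I * ((Real.sin (c * v) * g v : ℝ) : ℂ) := by
    intro v
    rw [Complex.exp_mul_I, ← Complex.ofReal_cos, ← Complex.ofReal_sin]
    push_cast
    ring
  rw [integral_congr_ae (Filter.Eventually.of_forall e1), integral_add h1.ofReal
    (h2.ofReal.const_mul _), integral_const_mul, integral_complex_ofReal, integral_complex_ofReal]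
  have e2 : ∫ v, Real.cos (c * v) * g v = 0 := by
    have h3 := integral_neg_eq_self (fun v => Real.cos (c * v) * g v) volume
    have h4 : ∀ v, Real.cos (c * -v) * g (-v) = -(Real.cos (c * v) * g v) := by
      intro v
      rw [hodd, mul_neg c, Real.cos_neg]
      ring
    rw [integral_congr_ae (Filter.Eventually.of_forall h4), integral_neg] at h3
    linarith
  have e3 : ∫ v, Real.sin (c * v) * g v = 2 * ∫ v in Ioi (0 : ℝ), Real.sin (c * v) * g v := by
    rw [← integral_comp_abs (f := fun v => Real.sin (c * v) * g v)]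
    refine integral_congr_ae (Filter.Eventually.of_forall fun v => ?_)
    simp only
    rcases abs_cases v with ⟨h, _⟩ | ⟨h, _⟩
    · rw [h]
    · rw [h, hodd, mul_neg c, Real.sin_neg]
      ring
  rw [e2, e3, Complex.ofReal_zero, zero_add]

/-- the profile -/
noncomputable def psr (x : ℝ) : ℝ := x * (max (1 - |x|) 0) ^ 2

theorem psr_odd (x : ℝ) : psr (-x) = -psr x := by
  unfold psr
  rw [abs_neg]
  ring

theorem psr_cont : Continuous psr := by
  unfold psr
  exact continuous_id.mul (((continuous_const.sub continuous_abs).max continuous_const).pow 2)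

theorem psr_int : Integrable psr := by
  refine psr_cont.integrable_of_hasCompactSupport ?_
  refine HasCompactSupport.intro (K := Icc (-1) 1) isCompact_Icc fun x hx => ?_
  have h1 : 1 < |x| := by
    by_contra hcon
    exact hx (abs_le.mp (not_lt.mp hcon))
  unfold psr
  rw [max_eq_right (by linarith)]
  ring

theorem psr_half (hPB : T_PB) (c : ℝ) :
    3 * ∫ v in Ioi (0 : ℝ), Real.sin (c * v) * psr v = pp c := by
  rw [hPB.2.2.2.2.2.2.2 c]
  congr 1
  rw [intervalIntegral.integral_of_le zero_le_one,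
    setIntegral_eq_of_subset_of_forall_sdiff_eq_zero measurableSet_Ioi
      (Ioc_subset_Ioi_self : Ioc (0 : ℝ) 1 ⊆ Ioi 0)]
  · refine setIntegral_congr_fun measurableSet_Ioc fun v hv => ?_
    unfold psr
    rw [abs_of_pos hv.1, max_eq_left (by linarith [hv.2])]
    ring
  · intro v hv
    have hv0 : (0 : ℝ) < v := hv.1
    have hv1 : 1 < v := by
      by_contra hcon
      exact hv.2 ⟨hv0, not_lt.mp hcon⟩
    unfold psr
    rw [abs_of_pos hv0, max_eq_right (by linarith)]
    ring

theorem pf_ps (hPB : T_PB) : T_PS := by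
  intro η hη
  have hodd : ∀ r, pp (-r) = -pp r := hPB.2.2.2.1
  have hppi : Integrable pp := hPB.2.2.2.2.2.1
  have hpi : (0 : ℝ) < 2 * Real.pi := by positivity
  set ψ : ℝ → ℂ := fun x => ((psr x : ℝ) : ℂ) with hψ
  have hψc : Continuous ψ := Complex.continuous_ofReal.comp psr_cont
  have hψi : Integrable ψ := psr_int.ofReal
  set G : ℝ → ℝ := fun y => pp (2 * Real.pi * y) with hG
  have hGi : Integrable G := hppi.comp_mul_left' hpi.ne'
  have hGodd : ∀ x, G (-x) = -G x := by
    intro x
    simp only [hG]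
    rw [mul_neg, hodd]
  have hF : ∀ y, 𝓕 ψ y = (-(2 / 3) * Complex.I) * ((G y : ℝ) : ℂ) := by
    intro y
    rw [Real.fourier_real_eq_integral_exp_smul]
    have e1 : ∀ v : ℝ, Complex.exp (↑(-2 * Real.pi * v * y) * Complex.I) • ψ v =
        Complex.exp ((((-(2 * Real.pi * y)) * v : ℝ) : ℂ) * Complex.I) * ((psr v : ℝ) : ℂ) := by
      intro v
      rw [smul_eq_mul]
      congr 4
      ring
    rw [integral_congr_ae (Filter.Eventually.of_forall e1), odd_ft psr psr_int psr_odd]
    have e2 : ∫ v in Ioi (0 : ℝ), Real.sin (-(2 * Real.pi * y) * v) * psr v =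
        -(1 / 3 * G y) := by
      have h1 := psr_half hPB (-(2 * Real.pi * y))
      rw [hodd] at h1
      simp only [hG]
      linarith
    rw [e2]
    push_cast
    ring
  have hFi : Integrable (𝓕 ψ) := by
    refine (hGi.ofReal.const_mul (-(2 / 3) * Complex.I)).congr ?_
    exact Filter.Eventually.of_forall fun y => (hF y).symm
  have hinv := congrFun (hψc.fourierInv_fourier_eq hψi hFi) η
  rw [Real.fourierInv_eq'] at hinv
  have e1 : ∀ v : ℝ, Complex.exp (↑(2 * Real.pi * inner ℝ v η) * Complex.I) • 𝓕 ψ v =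
      (-(2 / 3) * Complex.I) * (Complex.exp ((((2 * Real.pi * η) * v : ℝ) : ℂ) * Complex.I) *
        ((G v : ℝ) : ℂ)) := by
    intro v
    rw [smul_eq_mul, hF v]
    have : 2 * Real.pi * inner ℝ v η = 2 * Real.pi * η * v := by
      simp only [RCLike.inner_apply, conj_trivial]
      ring
    rw [this]
    ring
  rw [integral_congr_ae (Filter.Eventually.of_forall e1), integral_const_mul,
    odd_ft G hGi hGodd] at hinv
  have e2 : ∫ v in Ioi (0 : ℝ), Real.sin (2 * Real.pi * η * v) * G v =
      (2 * Real.pi)⁻¹ * ∫ r in Ioi (0 : ℝ), pp r * Real.sin (η * r) := by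
    have h1 := integral_comp_mul_left_Ioi (fun r => pp r * Real.sin (η * r)) 0 hpi
    rw [mul_zero, smul_eq_mul] at h1
    rw [← h1]
    refine setIntegral_congr_fun measurableSet_Ioi fun v _ => ?_
    simp only [hG]
    rw [mul_comm]
    congr 2
    ring
  rw [e2] at hinv
  have h3 : psr η = 2 / 3 * (2 * ((2 * Real.pi)⁻¹ *
      ∫ r in Ioi (0 : ℝ), pp r * Real.sin (η * r))) := by
    have h4 : ((psr η : ℝ) : ℂ) = ((2 / 3 * (2 * ((2 * Real.pi)⁻¹ *
        ∫ r in Ioi (0 : ℝ), pp r * Real.sin (η * r))) : ℝ) : ℂ) := by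
      rw [show ((psr η : ℝ) : ℂ) = ψ η from rfl, ← hinv]
      push_cast
      have hI : Complex.I * Complex.I = -1 := Complex.I_mul_I
      linear_combination (-(2 / 3) * (2 * ((2 * (Real.pi : ℂ))⁻¹ *
        ((∫ r in Ioi (0 : ℝ), pp r * Real.sin (η * r) : ℝ) : ℂ)))) * hI
    exact_mod_cast h4
  unfold psr at h3
  rw [abs_of_nonneg hη] at h3
  field_simp at h3
  linarith

end Pool.Agent.H86.MQ
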