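import Pool.Agent.H26.MQ.Defs

/-! # SG: the semigroup property of the Poisson kernel -/

set_option autoImplicit false

open MeasureTheory Set

namespace Pool.Agent.H86.MQ

open Pool.Agent.H26.MQ Pool.Agent.H26.ML

theorem lap {a : ℝ} (ha : 0 < a) (v : ℝ) :
    IntegrableOn (fun ξ => Real.exp (-(a * ξ)) * Real.cos (ξ * v)) (Ioi 0) ∧
    ∫ ξ in Ioi (0 : ℝ), Real.exp (-(a * ξ)) * Real.cos (ξ * v) = poi a v := by
  set z : ℂ := ⟨-a, v⟩ with hz
  have hre : z.re < 0 := by
    rw [hz]
    simpa using ha
  have hI := integrableOn_exp_mul_complex_Ioi hre 0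
  have hint := integral_exp_mul_complex_Ioi hre 0
  have hfun : ∀ ξ : ℝ, (Complex.exp (z * ξ)).re = Real.exp (-(a * ξ)) * Real.cos (ξ * v) := by
    intro ξ
    rw [Complex.exp_re]
    have e1 : (z * (ξ : ℂ)).re = -(a * ξ) := by
      rw [Complex.mul_re, Complex.ofReal_re, Complex.ofReal_im, hz]
      ring
    have e2 : (z * (ξ : ℂ)).im = ξ * v := by
      rw [Complex.mul_im, Complex.ofReal_re, Complex.ofReal_im, hz]
      ring
    rw [e1, e2]
  have hI2 : IntegrableOn (fun ξ : ℝ => (Complex.exp (z * ξ)).re) (Ioi 0) := hI.re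
  simp only [hfun] at hI2
  refine ⟨hI2, ?_⟩
  have h1 := integral_re hI
  simp only [RCLike.re_to_complex] at h1
  rw [setIntegral_congr_fun measurableSet_Ioi (fun ξ _ => hfun ξ)] at h1
  rw [h1, hint]
  have e3 : (-Complex.exp (z * ((0 : ℝ) : ℂ)) / z).re = a / (a ^ 2 + v ^ 2) := by
    rw [Complex.ofReal_zero, mul_zero, Complex.exp_zero, Complex.div_re, Complex.normSq_apply, hz]
    simp only [Complex.neg_re, Complex.one_re, Complex.neg_im, Complex.one_im]
    have : -a * -a + v * v = a ^ 2 + v ^ 2 := by ring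
    rw [this]
    ring
  rw [e3]
  rfl

theorem poi_le_inv {a : ℝ} (ha : 0 < a) (y : ℝ) : poi a y ≤ a⁻¹ := by
  unfold poi
  rw [div_le_iff₀ (by positivity), ← div_eq_inv_mul, le_div_iff₀ ha]
  nlinarith [sq_nonneg y]

theorem pf_sg (hPC : T_PC) : T_SG := by
  intro a c u ha hc
  have hint : Integrable (fun y => poi a (y - u) * poi c y) := by
    refine Integrable.bdd_mul (c := a⁻¹) (poi_integrable hc) ?_ ?_
    · exact ((poi_continuous ha).comp (continuous_id.sub continuous_const)).aestronglyMeasurable
    · refine Filter.Eventually.of_forall fun y => ?_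
      rw [Real.norm_of_nonneg (poi_pos ha _).le]
      exact poi_le_inv ha _
  refine ⟨hint, ?_⟩
  have hexp : IntegrableOn (fun ξ : ℝ => Real.exp (-(a * ξ))) (Ioi 0) := by
    have := (lap ha 0).1
    simpa using this
  set F : ℝ → ℝ → ℝ := fun y ξ => Real.exp (-(a * ξ)) * Real.cos (ξ * (y - u)) * poi c y with hF
  have hprod : Integrable (fun q : ℝ × ℝ => poi c q.1 * Real.exp (-(a * q.2)))
      (volume.prod (volume.restrict (Ioi 0))) := (poi_integrable hc).mul_prod hexp
  have hFi : Integrable (Function.uncurry F) (volume.prod (volume.restrict (Ioi 0))) := by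
    have h1 : Integrable (fun q : ℝ × ℝ => Real.cos (q.2 * (q.1 - u)) *
        (poi c q.1 * Real.exp (-(a * q.2)))) (volume.prod (volume.restrict (Ioi 0))) := by
      refine Integrable.bdd_mul (c := 1) hprod ?_ ?_
      · have : Continuous fun q : ℝ × ℝ => Real.cos (q.2 * (q.1 - u)) := by fun_prop
        exact this.aestronglyMeasurable
      · refine Filter.Eventually.of_forall fun q => ?_
        rw [Real.norm_eq_abs]
        exact Real.abs_cos_le_one _
    refine h1.congr (Filter.Eventually.of_forall fun q => ?_)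
    simp only [Function.uncurry, hF]
    ring
  have hsw := integral_integral_swap hFi
  have e1 : ∀ y, ∫ ξ in Ioi (0 : ℝ), F y ξ = poi a (y - u) * poi c y := by
    intro y
    simp only [hF]
    rw [integral_mul_const, (lap ha (y - u)).2]
  have e2 : ∀ ξ ∈ Ioi (0 : ℝ), ∫ y, F y ξ =
      Real.pi * (Real.exp (-((a + c) * ξ)) * Real.cos (ξ * u)) := by
    intro ξ hξ
    have h1 := (hPC c ξ u hc (le_of_lt hξ)).2
    have h2 : ∫ w, poi c (u - w) * Real.cos (ξ * w) = ∫ y, poi c y * Real.cos (ξ * (y - u)) := by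
      rw [← integral_sub_left_eq_self (fun y => poi c y * Real.cos (ξ * (y - u))) volume u]
      refine integral_congr_ae (Filter.Eventually.of_forall fun w => ?_)
      simp only
      congr 1
      rw [← Real.cos_neg]
      congr 1
      ring
    rw [h2] at h1
    have h3 : ∀ y, F y ξ = Real.exp (-(a * ξ)) * (poi c y * Real.cos (ξ * (y - u))) := by
      intro y
      simp only [hF]
      ring
    rw [integral_congr_ae (Filter.Eventually.of_forall h3), integral_const_mul, h1,
      show -((a + c) * ξ) = -(a * ξ) + -(c * ξ) by ring, Real.exp_add]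
    ring
  rw [← integral_congr_ae (Filter.Eventually.of_forall e1), hsw,
    setIntegral_congr_fun measurableSet_Ioi e2, integral_const_mul,
    (lap (by positivity : 0 < a + c) u).2]

end Pool.Agent.H86.MQ
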